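import Mathlib
import Pool.Agent.U792.G2.Split

/-!
# Sums of `p`-th powers of conjugate quadratic integers: arithmetic

If `A = (x + y) ^ 2` and `B = x y` then `(x + y) H A B k = x ^ (2 k + 1) + y ^ (2 k + 1)`.
-/

set_option autoImplicit false

namespace Pool.Agent.U792.QF

/-- `(x ^ (2 k + 1) + y ^ (2 k + 1)) / (x + y)` as a polynomial in `A = (x + y) ^ 2`, `B = x y` -/
def H (A B : ℤ) : ℕ → ℤ
  | 0 => 1
  | 1 => A - 3 * B
  | k + 2 => (A - 2 * B) * H A B (k + 1) - B ^ 2 * H A B k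

theorem H_mul {A B : ℤ} {x y : ℂ} (hA : (x + y) ^ 2 = A) (hB : x * y = B) : ∀ k : ℕ,
    (x + y) * (H A B k : ℂ) = x ^ (2 * k + 1) + y ^ (2 * k + 1)
  | 0 => by simp [H]
  | 1 => by
    simp only [H]
    push_cast
    rw [← hA, ← hB]
    ring
  | k + 2 => by
    have h1 := H_mul hA hB k
    have h2 := H_mul hA hB (k + 1)
    simp only [H]
    push_cast
    have e : (x + y) * (((A : ℂ) - 2 * B) * H A B (k + 1) - B ^ 2 * H A B k) =
        (A - 2 * B) * ((x + y) * H A B (k + 1)) - B ^ 2 * ((x + y) * H A B k) := by ring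
    rw [e, h1, h2, ← hA, ← hB]
    ring

/-- homogeneity -/
theorem H_smul (a A B : ℤ) : ∀ k : ℕ, H (a * A) (a * B) k = a ^ k * H A B k
  | 0 => by simp [H]
  | 1 => by
    simp only [H]
    ring
  | k + 2 => by
    have h1 := H_smul a A B k
    have h2 := H_smul a A B (k + 1)
    simp only [H]
    rw [h1, h2]
    ring

theorem H_mod_B (A B : ℤ) : ∀ k : ℕ, B ∣ H A B k - A ^ k
  | 0 => by simp [H]
  | 1 => by
    simp only [H]
    exact ⟨-3, by ring⟩
  | k + 2 => by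
    obtain ⟨t, ht⟩ := H_mod_B A B (k + 1)
    simp only [H]
    refine ⟨A * t - 2 * H A B (k + 1) - B * H A B k, ?_⟩
    have h : H A B (k + 1) = A ^ (k + 1) + B * t := by linarith
    have e : A ^ (k + 2) = A * A ^ (k + 1) := by ring
    rw [e]
    linear_combination A * h

theorem H_mod_A (A B : ℤ) : ∀ k : ℕ, A ^ 2 ∣ 6 * H A B (k + 1) -
    (6 * (2 * k + 3) * (-B) ^ (k + 1) + (2 * k + 3) * (k + 2) * (k + 1) * (-B) ^ k * A)
  | 0 => by
    simp only [H]
    refine ⟨0, ?_⟩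
    push_cast
    ring
  | 1 => by
    simp only [H]
    refine ⟨6, ?_⟩
    push_cast
    ring
  | k + 2 => by
    obtain ⟨s, hs⟩ := H_mod_A A B k
    obtain ⟨t, ht⟩ := H_mod_A A B (k + 1)
    have e0 : H A B (k + 2 + 1) = (A - 2 * B) * H A B (k + 1 + 1) - B ^ 2 * H A B (k + 1) := rfl
    rw [e0]
    push_cast at hs ht ⊢
    refine ⟨(A - 2 * B) * t - B ^ 2 * s + (2 * k + 5) * (k + 3) * (k + 2) * (-B) ^ (k + 1), ?_⟩
    have e1 : (-B) ^ (k + 1) = -B * (-B) ^ k := by ring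
    have e2 : (-B) ^ (k + 2) = B ^ 2 * (-B) ^ k := by ring
    have e3 : (-B) ^ (k + 2 + 1) = -B * (B ^ 2 * (-B) ^ k) := by rw [pow_succ, e2]; ring
    have e4 : (-B) ^ (k + 1 + 1) = B ^ 2 * (-B) ^ k := by rw [← e2]
    rw [e2, e3, e1]
    rw [e1] at hs
    rw [e4, e1] at ht
    linear_combination (A - 2 * B) * ht - B ^ 2 * hs

theorem isIntegral_of {A B : ℤ} {x y : ℂ} (hA : (x + y) ^ 2 = A) (hB : x * y = B) :
    IsIntegral ℤ x := by
  have h : IsIntegral ℤ (x ^ 2) := by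
    refine ⟨Polynomial.X ^ 2 - Polynomial.C (A - 2 * B) * Polynomial.X + Polynomial.C (B ^ 2), ?_, ?_⟩
    · monicity!
    · simp only [Polynomial.eval₂_add, Polynomial.eval₂_sub, Polynomial.eval₂_mul,
        Polynomial.eval₂_pow, Polynomial.eval₂_X, Polynomial.eval₂_C]
      have e1 : (algebraMap ℤ ℂ) (A - 2 * B) = (A : ℂ) - 2 * B := by push_cast; rfl
      have e2 : (algebraMap ℤ ℂ) (B ^ 2) = (B : ℂ) ^ 2 := by push_cast; rfl
      rw [e1, e2, ← hA, ← hB]
      ring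
  exact h.of_pow two_pos

/-- Cauchy's congruence -/
theorem cauchy {p k : ℕ} (hp : p.Prime) (hk : p = 2 * k + 1) {A B : ℤ} {x y : ℂ}
    (hA : (x + y) ^ 2 = A) (hB : x * y = B) (hB0 : B ≠ 0) :
    (p : ℤ) * B ∣ A * (A ^ k - H A B k) := by
  have hx := isIntegral_of hA hB
  have hy := isIntegral_of (x := y) (y := x) (by rw [add_comm]; exact hA)
    (by rw [mul_comm]; exact hB)
  obtain ⟨r, hr⟩ := exists_add_pow_prime_eq hp (⟨x, hx⟩ : integralClosure ℤ ℂ) ⟨y, hy⟩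
  have h1 : (x + y) ^ p = x ^ p + y ^ p + p * x * y * (r : ℂ) := by
    have := congrArg (fun t : integralClosure ℤ ℂ => (t : ℂ)) hr
    simpa using this
  have h2 := H_mul hA hB k
  rw [← hk] at h2
  have hp0 : (p : ℂ) ≠ 0 := by exact_mod_cast hp.ne_zero
  have hB0' : (B : ℂ) ≠ 0 := by exact_mod_cast hB0
  have h3 : ((A : ℂ) * (A ^ k - H A B k)) = p * B * (r * (x + y)) := by
    have e1 : (x + y) * (x + y) ^ p = (A : ℂ) * A ^ k := by
      rw [← hA, hk, ← pow_mul]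
      generalize x + y = w
      ring
    have e2 : (x + y) * (x ^ p + y ^ p) = (A : ℂ) * H A B k := by
      rw [← h2, ← hA]
      ring
    rw [mul_sub, ← e1, ← e2, h1, ← hB]
    ring
  have h4 : algebraMap ℚ ℂ (((A * (A ^ k - H A B k) : ℤ) : ℚ) / ((p : ℤ) * B : ℤ)) =
      (r : ℂ) * (x + y) := by
    have e : algebraMap ℚ ℂ (((A * (A ^ k - H A B k) : ℤ) : ℚ) / ((p : ℤ) * B : ℤ)) =
        ((A : ℂ) * (A ^ k - H A B k)) / (p * B) := by
      rw [map_div₀, eq_ratCast, eq_ratCast]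
      push_cast
      rfl
    rw [e, h3]
    field_simp
  have h5 : IsIntegral ℤ (((A * (A ^ k - H A B k) : ℤ) : ℚ) / ((p : ℤ) * B : ℤ)) := by
    have h6 : IsIntegral ℤ (algebraMap ℚ ℂ (((A * (A ^ k - H A B k) : ℤ) : ℚ) /
        ((p : ℤ) * B : ℤ))) := by
      rw [h4]; exact IsIntegral.mul r.2 (IsIntegral.add hx hy)
    exact (isIntegral_algebraMap_iff (algebraMap ℚ ℂ).injective).1 h6
  obtain ⟨m, hm⟩ := IsIntegrallyClosed.isIntegral_iff.1 h5
  refine ⟨m, ?_⟩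
  have hpB : (((p : ℤ) * B : ℤ) : ℚ) ≠ 0 := by
    have : (p : ℤ) * B ≠ 0 := mul_ne_zero (by exact_mod_cast hp.ne_zero) hB0
    exact_mod_cast this
  have h7 : ((A * (A ^ k - H A B k) : ℤ) : ℚ) = (((p : ℤ) * B * m : ℤ) : ℚ) := by
    have h8 : (algebraMap ℤ ℚ) m = (m : ℚ) := rfl
    rw [h8] at hm
    rw [eq_div_iff hpB] at hm
    push_cast at hm ⊢
    linarith
  exact_mod_cast h7

/-- If `p` divides `A`, it divides `H` exactly once. -/
theorem p_exact {p k : ℕ} (hp : p.Prime) (hp5 : 5 ≤ p) (hk : p = 2 * k + 1) {A B : ℤ}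
    (hc : IsCoprime A B) (hpA : (p : ℤ) ∣ A) : ¬ (p : ℤ) ^ 2 ∣ H A B k := by
  intro h1
  have hpp : Prime (p : ℤ) := Nat.prime_iff_prime_int.1 hp
  have hpB : ¬ (p : ℤ) ∣ B := fun h => hpp.not_isUnit (hc.isUnit_of_dvd' hpA h)
  obtain ⟨j, rfl⟩ : ∃ j, k = j + 1 := ⟨k - 1, by omega⟩
  have hpc : ((p : ℕ) : ℤ) = 2 * j + 3 := by rw [hk]; push_cast; ring
  have h2 := H_mod_A A B j
  have h3 : (p : ℤ) ^ 2 ∣ 6 * H A B (j + 1) -
    (6 * (2 * j + 3) * (-B) ^ (j + 1) + (2 * j + 3) * (j + 2) * (j + 1) * (-B) ^ j * A) :=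
    (pow_dvd_pow_of_dvd hpA 2).trans h2
  rw [← hpc] at h3
  obtain ⟨A', hA'⟩ := hpA
  have h4 : (p : ℤ) ^ 2 ∣ 6 * p * (-B) ^ (j + 1) := by
    have h5 := dvd_sub (h1.mul_left 6) h3
    rw [sub_sub_cancel] at h5
    have h6 : (p : ℤ) ^ 2 ∣ p * (j + 2) * (j + 1) * (-B) ^ j * A := by
      rw [hA']
      exact ⟨(j + 2) * (j + 1) * (-B) ^ j * A', by ring⟩
    exact (dvd_add_left h6).1 h5
  have h5 : (p : ℤ) ∣ 6 * (-B) ^ (j + 1) := by
    have h6 : (p : ℤ) * p ∣ p * (6 * (-B) ^ (j + 1)) := by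
      have e1 : (p : ℤ) ^ 2 = p * p := by ring
      have e2 : 6 * (p : ℤ) * (-B) ^ (j + 1) = p * (6 * (-B) ^ (j + 1)) := by ring
      rwa [e1, e2] at h4
    exact (mul_dvd_mul_iff_left (by exact_mod_cast hp.ne_zero)).1 h6
  rcases hpp.dvd_or_dvd h5 with h6 | h6
  · have h7 : p ∣ 2 * 3 := by exact_mod_cast h6
    rcases hp.dvd_mul.1 h7 with h8 | h8
    · have := Nat.le_of_dvd (by norm_num) h8
      omega
    · have := Nat.le_of_dvd (by norm_num) h8
      omega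
  · exact hpB ((dvd_neg).1 (hpp.dvd_of_dvd_pow h6))

/-- a common prime factor of `A` and `H` is `p` -/
theorem common {p k : ℕ} (hp5 : 5 ≤ p) (hk : p = 2 * k + 1) {A B : ℤ}
    (hc : IsCoprime A B) {l : ℤ} (hl : Prime l) (h1 : l ∣ A) (h2 : l ∣ H A B k) : l ∣ (p : ℤ) := by
  obtain ⟨t, ht⟩ := H_mod_B A B k
  obtain ⟨j, rfl⟩ : ∃ j, k = j + 1 := ⟨k - 1, by omega⟩
  -- use the product formula with the linear recursion modulo `A`
  have key : ∀ m : ℕ, A ∣ H A B m - (2 * m + 1) * (-B) ^ m := by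
    intro m
    induction m using Nat.twoStepInduction with
    | zero => simp [H]
    | one => exact ⟨1, by simp only [H]; push_cast; ring⟩
    | more m h3 h4 =>
      obtain ⟨s, hs⟩ := h3
      obtain ⟨t, ht⟩ := h4
      have e0 : H A B (m + 2) = (A - 2 * B) * H A B (m + 1) - B ^ 2 * H A B m := rfl
      rw [e0]
      refine ⟨H A B (m + 1) - 2 * B * t - B ^ 2 * s, ?_⟩
      push_cast at ht ⊢
      have e1 : (-B) ^ (m + 1) = -B * (-B) ^ m := by ring
      have e2 : (-B) ^ (m + 2) = B ^ 2 * (-B) ^ m := by ring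
      rw [e2]
      rw [e1] at ht
      linear_combination (-2 * B) * ht - B ^ 2 * hs
  have h3 : l ∣ (2 * ((j + 1 : ℕ) : ℤ) + 1) * (-B) ^ (j + 1) := by
    have := dvd_sub h2 (h1.trans (key (j + 1)))
    rwa [sub_sub_cancel] at this
  rcases hl.dvd_or_dvd h3 with h5 | h5
  · rw [hk]; push_cast; push_cast at h5; exact h5
  · exfalso
    have h6 := (dvd_neg).1 (hl.dvd_of_dvd_pow h5)
    exact hl.not_isUnit (hc.isUnit_of_dvd' h1 h6)

/-- the numerator and the denominator of `z / (x + y)` -/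
theorem factor {p k : ℕ} (hp : p.Prime) (hp5 : 5 ≤ p) (hk : p = 2 * k + 1) {A B r s : ℤ}
    (hc : IsCoprime A B) (hA : 0 < A) (hs : 0 < s) (hrs : IsCoprime r s)
    (h : A ^ k * r ^ p = s ^ p * H A B k) :
    ∃ δ : ℕ, 0 < δ ∧ (δ : ℤ) * r ^ p = H A B k ∧ (δ : ℤ) * s ^ p = A ^ k ∧
      (δ = 1 ∨ (δ = p ∧ (p : ℤ) ∣ A)) := by
  have hpp : Prime (p : ℤ) := Nat.prime_iff_prime_int.1 hp
  have h1 : s ^ p ∣ A ^ k := by
    have h2 : s ^ p ∣ A ^ k * r ^ p := by rw [h]; exact Dvd.intro _ rfl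
    exact (hrs.symm.pow (m := p) (n := p)).dvd_of_dvd_mul_right h2
  obtain ⟨c, hc'⟩ := h1
  have hsp : 0 < s ^ p := by positivity
  have hAk : 0 < A ^ k := by positivity
  have hcpos : 0 < c := by
    rw [hc'] at hAk
    exact (pos_iff_pos_of_mul_pos hAk).1 hsp
  lift c to ℕ using hcpos.le with δ hδ
  have hδpos : 0 < δ := by exact_mod_cast hcpos
  have hH : (δ : ℤ) * r ^ p = H A B k := by
    rw [hc'] at h
    have h3 : s ^ p * ((δ : ℤ) * r ^ p) = s ^ p * H A B k := by rw [← h]; ring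
    exact mul_left_cancel₀ hsp.ne' h3
  have hAA : (δ : ℤ) * s ^ p = A ^ k := by rw [hc']; ring
  refine ⟨δ, hδpos, hH, hAA, ?_⟩
  -- every prime factor of `δ` is `p`
  have h4 : ∀ l : ℕ, l.Prime → l ∣ δ → l = p ∧ (p : ℤ) ∣ A := by
    intro l hl hld
    have hlZ : Prime (l : ℤ) := Nat.prime_iff_prime_int.1 hl
    have h5 : (l : ℤ) ∣ δ := by exact_mod_cast hld
    have h6 : (l : ℤ) ∣ A := by
      have : (l : ℤ) ∣ A ^ k := by rw [← hAA]; exact h5.mul_right _
      exact hlZ.dvd_of_dvd_pow this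
    have h7 : (l : ℤ) ∣ H A B k := by rw [← hH]; exact h5.mul_right _
    have h8 := common hp5 hk hc hlZ h6 h7
    have h9 : l = p := by
      have : l ∣ p := by exact_mod_cast h8
      exact (Nat.prime_dvd_prime_iff_eq hl hp).1 this
    exact ⟨h9, by rw [← h9]; exact h6⟩
  by_cases h1 : δ = 1
  · exact Or.inl h1
  · right
    obtain ⟨l, hl, hld⟩ := Nat.exists_prime_and_dvd h1
    obtain ⟨h5, h6⟩ := h4 l hl hld
    rw [h5] at hld
    refine ⟨?_, h6⟩
    obtain ⟨c, rfl⟩ := hld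
    have h7 : c = 1 := by
      by_contra h8
      obtain ⟨q, hq, hqc⟩ := Nat.exists_prime_and_dvd h8
      have h9 := (h4 q hq (hqc.mul_left p)).1
      rw [h9] at hqc
      obtain ⟨c', rfl⟩ := hqc
      apply p_exact hp hp5 hk hc h6
      rw [← hH]
      push_cast
      exact ⟨c' * r ^ p, by ring⟩
    rw [h7, mul_one]

/-- the congruence for the roots -/
theorem root_dvd {p k : ℕ} (hp : p.Prime) (hp5 : 5 ≤ p) (hk : p = 2 * k + 1) {A B : ℤ} {x y : ℂ}
    (hA : (x + y) ^ 2 = A) (hB : x * y = B) (hB0 : B ≠ 0) (hc : IsCoprime A B) {δ : ℕ} {f W : ℤ}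
    (hf : (δ : ℤ) * f ^ p = H A B k) (hW : (δ : ℤ) * W ^ p = A ^ k)
    (hδ : δ = 1 ∨ (δ = p ∧ (p : ℤ) ∣ A)) {d : ℕ} (hd : (d : ℤ) ∣ B)
    (hl : ∀ l : ℕ, l.Prime → l ∣ d → ¬ l ≡ 1 [MOD p]) : (d : ℤ) ∣ f - W := by
  have hpp : Prime (p : ℤ) := Nat.prime_iff_prime_int.1 hp
  have hd0 : d ≠ 0 := by
    rintro rfl
    rw [Nat.cast_zero, zero_dvd_iff] at hd
    exact hB0 hd
  -- `B` divides `f ^ p - W ^ p`
  have hmodN : B ∣ (δ : ℤ) * (f ^ p - W ^ p) := by
    rw [mul_sub, hf, hW]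
    exact H_mod_B A B k
  have hδN : IsCoprime (δ : ℤ) B := by
    rcases hδ with h | ⟨h1, h2⟩
    · rw [h, Nat.cast_one]; exact isCoprime_one_left
    · rw [h1]
      exact IsCoprime.of_isCoprime_of_dvd_left hc h2
  have hNd : B ∣ f ^ p - W ^ p := hδN.symm.dvd_of_dvd_mul_left hmodN
  -- coprimality
  have hWN : IsCoprime W B := by
    have h1 : IsCoprime (A ^ k) B := hc.pow_left
    rw [← hW] at h1
    exact (IsCoprime.pow_left_iff hp.pos).1 h1.of_mul_left_right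
  have hfN : IsCoprime f B := by
    have h1 : IsCoprime (f ^ p) B := by
      obtain ⟨t, ht⟩ := hNd
      have e : f ^ p = W ^ p + B * t := by linarith
      rw [e]
      exact (IsCoprime.add_mul_left_left_iff (x := W ^ p) (y := B) (z := t)).2 hWN.pow_left
    exact (IsCoprime.pow_left_iff hp.pos).1 h1
  -- the prime `p`
  obtain ⟨v, d', hd', hdd⟩ := Nat.exists_eq_pow_mul_and_not_dvd hd0 p hp.ne_one
  have hd'0 : d' ≠ 0 := by rintro rfl; exact hd' (dvd_zero _)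
  have h1 : ((d' : ℕ) : ℤ) ∣ B := by
    refine dvd_trans ?_ hd
    rw [hdd]
    push_cast
    exact Dvd.intro_left _ rfl
  have h2 : ((p ^ v : ℕ) : ℤ) ∣ B := by
    refine dvd_trans ?_ hd
    rw [hdd]
    push_cast
    exact Dvd.intro _ rfl
  have g1 : ((d' : ℕ) : ℤ) ∣ f - W := by
    refine Pool.Agent.U792.G2.dvd_sub_of_dvd_pow_sub (n := p) hd'0 ?_
      (IsCoprime.of_isCoprime_of_dvd_right hfN h1).symm
      (IsCoprime.of_isCoprime_of_dvd_right hWN h1).symm (h1.trans hNd)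
    rw [Nat.totient_eq_div_primeFactors_mul]
    refine Nat.Coprime.mul_left ?_ ?_
    · rw [Nat.coprime_comm, Nat.Prime.coprime_iff_not_dvd hp]
      exact fun h3 => hd' (h3.trans (Nat.div_dvd_of_dvd (Nat.prod_primeFactors_dvd _)))
    · refine Nat.Coprime.prod_left ?_
      intro l hl'
      rw [Nat.coprime_comm, Nat.Prime.coprime_iff_not_dvd hp]
      intro h3
      have hlp := Nat.prime_of_mem_primeFactors hl'
      have hld := Nat.dvd_of_mem_primeFactors hl'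
      refine hl l hlp ?_ ((Nat.modEq_iff_dvd' hlp.one_lt.le).2 h3).symm
      rw [hdd]
      exact hld.mul_left _
  have g2 : ((p ^ v : ℕ) : ℤ) ∣ f - W := by
    rcases Nat.eq_zero_or_pos v with hv | hv
    · rw [hv, pow_zero, Nat.cast_one]
      exact one_dvd _
    · have hpN : (p : ℤ) ∣ B := by
        refine dvd_trans ?_ h2
        push_cast
        exact dvd_pow_self _ hv.ne'
      have hpX : ¬ (p : ℤ) ∣ A := fun h3 => hpp.not_isUnit (hc.isUnit_of_dvd' h3 hpN)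
      have hδ1 : δ = 1 := by
        rcases hδ with h3 | h3
        · exact h3
        · exact absurd h3.2 hpX
      rw [hδ1, Nat.cast_one, one_mul] at hf hW
      -- `p ^ (v + 1)` divides `f ^ p - W ^ p`
      have h3 := cauchy hp hk hA hB hB0
      have h4 : (p : ℤ) ^ (v + 1) ∣ A * (W ^ p - f ^ p) := by
        rw [hf, hW]
        refine dvd_trans ?_ h3
        rw [pow_succ']
        refine mul_dvd_mul_left _ ?_
        push_cast at h2
        exact h2
      have h5 : IsCoprime ((p : ℤ) ^ (v + 1)) A := by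
        apply IsCoprime.pow_left
        exact (Prime.coprime_iff_not_dvd hpp).2 hpX
      have h6 : (p : ℤ) ^ (v + 1) ∣ f ^ p - W ^ p := by
        have := h5.dvd_of_dvd_mul_left h4
        rwa [← dvd_neg, neg_sub] at this
      have hpW : ¬ (p : ℤ) ∣ W := fun h7 =>
        hpp.not_isUnit (hWN.isUnit_of_dvd' h7 hpN)
      have hpf : ¬ (p : ℤ) ∣ f := fun h7 =>
        hpp.not_isUnit (hfN.isUnit_of_dvd' h7 hpN)
      have h7 : (p : ℤ) ∣ f - W := by
        have := Fact.mk hp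
        rw [← ZMod.intCast_zmod_eq_zero_iff_dvd]
        have h8 : ((f ^ p - W ^ p : ℤ) : ZMod p) = 0 := by
          rw [ZMod.intCast_zmod_eq_zero_iff_dvd]
          exact (dvd_pow_self _ (Nat.succ_ne_zero v)).trans h6
        push_cast at h8 ⊢
        rw [ZMod.pow_card, ZMod.pow_card] at h8
        exact h8
      have h8 := Int.emultiplicity_pow_sub_pow hp (hp.odd_of_ne_two (by omega)) h7 hpf p
      have h9 : ((v + 1 : ℕ) : ℕ∞) ≤ emultiplicity (p : ℤ) (f ^ p - W ^ p) :=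
        pow_dvd_iff_le_emultiplicity.1 h6
      rw [h8] at h9
      have h10 : emultiplicity p p = 1 := by
        have h11 : FiniteMultiplicity p p := Nat.finiteMultiplicity_iff.2 ⟨hp.ne_one, hp.pos⟩
        exact h11.emultiplicity_self
      rw [h10] at h9
      push_cast
      apply pow_dvd_iff_le_emultiplicity.2
      push_cast at h9
      exact (ENat.add_le_add_iff_right (by norm_num)).1 h9
  rw [hdd]
  push_cast
  push_cast at g2
  refine IsCoprime.mul_dvd ?_ g2 g1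
  apply IsCoprime.pow_left
  rw [Nat.isCoprime_iff_coprime, Nat.Prime.coprime_iff_not_dvd hp]
  exact hd'

end Pool.Agent.U792.QF
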