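import Mathlib
import Pool.Agent.U792.QF.Arith

/-!
# Sums of `p`-th powers of conjugate quadratic integers: sizes
-/

set_option autoImplicit false

namespace Pool.Agent.U792.QF

open Finset

/-- a real number near one -/
theorem near_one {p : ℕ} (hp : Odd p) {u v ρ : ℝ} (huv : u + v = 1) (hle : |v| ≤ |u|)
    (h : ρ ^ p = u ^ p + v ^ p) : |ρ - 1| ≤ |v| := by
  have hmono : StrictMono (fun t : ℝ => t ^ p) := hp.strictMono_pow
  have hu : u = 1 - v := by linarith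
  rcases le_total 0 v with hv | hv
  · -- `0 ≤ v ≤ u`
    have hu0 : v ≤ u := by
      rw [abs_of_nonneg hv] at hle
      rcases le_total 0 u with h0 | h0
      · rwa [abs_of_nonneg h0] at hle
      · rw [abs_of_nonpos h0] at hle
        linarith
    have hu1 : 0 ≤ u := hv.trans hu0
    rw [abs_of_nonneg hv, abs_le]
    constructor
    · have h1 : u ^ p ≤ ρ ^ p := by rw [h]; have := pow_nonneg hv p; linarith
      have := hmono.le_iff_le.1 h1
      linarith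
    · have h1 : ρ ^ p ≤ 1 ^ p := by
        rw [h, one_pow, ← one_pow p, ← huv]
        exact pow_add_pow_le hu1 hv hp.pos.ne'
      have := hmono.le_iff_le.1 h1
      linarith
  · -- `v ≤ 0`
    have hv' : 0 ≤ -v := by linarith
    have h2 : v ^ p = - (-v) ^ p := by rw [hp.neg_pow, neg_neg]
    rw [abs_of_nonpos hv, abs_le]
    constructor
    · have h1 : (1 : ℝ) ^ p ≤ ρ ^ p := by
        have h3 : 1 ^ p + (-v) ^ p ≤ (1 + (-v)) ^ p := pow_add_pow_le zero_le_one hv' hp.pos.ne'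
        rw [h, h2, hu, sub_eq_add_neg]
        linarith
      have := hmono.le_iff_le.1 h1
      linarith
    · have h1 : ρ ^ p ≤ u ^ p := by
        rw [h, h2]
        have := pow_nonneg hv' p
        linarith
      have := hmono.le_iff_le.1 h1
      linarith

/-- the real case -/
theorem real_case {p k : ℕ} (hk : p = 2 * k + 1) {A B : ℤ} (hA : 0 < A) {u v : ℝ}
    (huv : u + v = 1) (huvB : u * v * A = B) (hle : |v| ≤ |u|) {r s : ℤ} (hs : 0 < s)
    (h : (r / s : ℝ) ^ p = u ^ p + v ^ p) (hrs : r ≠ s) (hsA : s ^ p ≤ A ^ k) {d e : ℕ}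
    (hde : B.natAbs = d * e) (hd : (d : ℤ) ∣ r - s) (hd0 : 0 < d) :
    |u| ^ p * (A : ℝ) ^ (k + 1) ≤ (e : ℝ) ^ p := by
  have hp : Odd p := ⟨k, hk⟩
  have hs' : (0 : ℝ) < s := by exact_mod_cast hs
  have hA' : (0 : ℝ) < A := by exact_mod_cast hA
  have h1 := near_one hp huv hle h
  have h2 : |(r : ℝ) - s| ≤ s * |v| := by
    have e1 : (r : ℝ) - s = s * (r / s - 1) := by field_simp
    rw [e1, abs_mul, abs_of_pos hs']
    exact mul_le_mul_of_nonneg_left h1 hs'.le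
  have h3 : (d : ℝ) ≤ |(r : ℝ) - s| := by
    have h4 : (d : ℤ) ≤ |r - s| := Int.le_of_dvd (abs_pos.2 (sub_ne_zero.2 hrs)) ((dvd_abs _ _).2 hd)
    have h5 : ((d : ℤ) : ℝ) ≤ ((|r - s| : ℤ) : ℝ) := by exact_mod_cast h4
    push_cast at h5
    exact h5
  have h4 : |u| * |v| * A = d * e := by
    have h5 : |(B : ℝ)| = d * e := by
      have h6 : |(B : ℝ)| = (B.natAbs : ℝ) := by
        rw [Nat.cast_natAbs, Int.cast_abs]
      rw [h6, hde]
      push_cast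
      ring
    rw [← h5, ← huvB, abs_mul, abs_mul, abs_of_pos hA']
  have hd' : (0 : ℝ) < d := by exact_mod_cast hd0
  have h5 : |u| * A ≤ s * e := by
    have h6 : d * (|u| * A) ≤ d * (s * e) := by
      calc d * (|u| * A) ≤ (s * |v|) * (|u| * A) :=
            mul_le_mul_of_nonneg_right (h3.trans h2) (by positivity)
        _ = s * (|u| * |v| * A) := by ring
        _ = d * (s * e) := by rw [h4]; ring
    exact le_of_mul_le_mul_left h6 hd'
  have h6 : (|u| * A) ^ p ≤ (s * e : ℝ) ^ p := by gcongr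
  rw [mul_pow, mul_pow] at h6
  have h7 : ((s : ℝ)) ^ p ≤ (A : ℝ) ^ k := by exact_mod_cast hsA
  have h8 : |u| ^ p * (A : ℝ) ^ p ≤ A ^ k * e ^ p :=
    h6.trans (mul_le_mul_of_nonneg_right h7 (by positivity))
  have h9 : (A : ℝ) ^ p = A ^ k * A ^ (k + 1) := by rw [← pow_add, hk]; congr 1; ring
  rw [h9] at h8
  have h10 : (A : ℝ) ^ k * (|u| ^ p * A ^ (k + 1)) ≤ A ^ k * e ^ p := by
    calc (A : ℝ) ^ k * (|u| ^ p * A ^ (k + 1)) = |u| ^ p * (A ^ k * A ^ (k + 1)) := by ring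
      _ ≤ _ := h8
  exact le_of_mul_le_mul_left h10 (by positivity)

/-- the size of `H` in the imaginary case -/
theorem norm_G_le {k : ℕ} {x y : ℂ} (hxy : x + y ≠ 0) (hM : ‖x‖ = ‖y‖) {G : ℂ}
    (hG : (x + y) * G = x ^ (2 * k + 1) + y ^ (2 * k + 1)) :
    ‖G‖ ≤ (2 * k + 1 : ℕ) * ‖x‖ ^ (2 * k) := by
  have hodd : Odd (2 * k + 1) := ⟨k, rfl⟩
  have h1 : (∑ i ∈ range (2 * k + 1), x ^ i * (-y) ^ (2 * k + 1 - 1 - i)) * (x - -y) =
      x ^ (2 * k + 1) - (-y) ^ (2 * k + 1) := (Commute.all x (-y)).geom_sum₂_mul _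
  rw [hodd.neg_pow, sub_neg_eq_add, sub_neg_eq_add] at h1
  have h2 : G = ∑ i ∈ range (2 * k + 1), x ^ i * (-y) ^ (2 * k + 1 - 1 - i) := by
    apply mul_left_cancel₀ hxy
    rw [hG, ← h1, mul_comm]
  rw [h2]
  refine (norm_sum_le _ _).trans ?_
  have h3 : ∀ i ∈ range (2 * k + 1), ‖x ^ i * (-y) ^ (2 * k + 1 - 1 - i)‖ ≤ ‖x‖ ^ (2 * k) := by
    intro i hi
    rw [mem_range] at hi
    rw [norm_mul, norm_pow, norm_pow, norm_neg, ← hM, ← pow_add]
    rw [show i + (2 * k + 1 - 1 - i) = 2 * k by omega]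
  refine (sum_le_sum h3).trans ?_
  rw [sum_const, card_range, nsmul_eq_mul]

/-- the imaginary case -/
theorem imag_case {p k : ℕ} (hk : p = 2 * k + 1) {A B : ℤ} (hB : 0 < B)
    (hAB : A ≤ 4 * B) {Hk r s : ℤ} (hH : |(Hk : ℝ)| ≤ p * (B : ℝ) ^ k)
    (hs : 0 < s) (hr : |r| ^ p ≤ |Hk|) (hrs : r ≠ s) (hsA : s ^ p ≤ A ^ k)
    (hA0 : 0 < A) {d e : ℕ}
    (hde : B.natAbs = d * e) (hd : (d : ℤ) ∣ r - s) :
    ((d * e : ℕ) : ℝ) ^ (k + 1) ≤ (4 * e : ℝ) ^ p := by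
  have hs' : (0 : ℝ) < s := by exact_mod_cast hs
  have hB' : (0 : ℝ) < B := by exact_mod_cast hB
  have hB1 : (1 : ℝ) ≤ B := by exact_mod_cast hB
  have h3 : (d : ℝ) ≤ |(r : ℝ) - s| := by
    have h4 : (d : ℤ) ≤ |r - s| := Int.le_of_dvd (abs_pos.2 (sub_ne_zero.2 hrs)) ((dvd_abs _ _).2 hd)
    have h5 : ((d : ℤ) : ℝ) ≤ ((|r - s| : ℤ) : ℝ) := by exact_mod_cast h4
    push_cast at h5
    exact h5
  have h4 : |(r : ℝ)| ^ p ≤ 2 ^ p * (B : ℝ) ^ k := by
    have h5 : ((|r| ^ p : ℤ) : ℝ) ≤ ((|Hk| : ℤ) : ℝ) := by exact_mod_cast hr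
    push_cast at h5
    refine h5.trans (hH.trans ?_)
    refine mul_le_mul_of_nonneg_right ?_ (by positivity)
    have : p < 2 ^ p := Nat.lt_two_pow_self
    exact_mod_cast this.le
  have h5 : (s : ℝ) ^ p ≤ 2 ^ p * (B : ℝ) ^ k := by
    have h6 : ((s ^ p : ℤ) : ℝ) ≤ ((A ^ k : ℤ) : ℝ) := by exact_mod_cast hsA
    push_cast at h6
    have h7 : (A : ℝ) ≤ 4 * B := by exact_mod_cast hAB
    have hA' : (0 : ℝ) ≤ A := by exact_mod_cast hA0.le
    calc (s : ℝ) ^ p ≤ (A : ℝ) ^ k := h6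
      _ ≤ (4 * B) ^ k := by gcongr
      _ = 2 ^ (2 * k) * (B : ℝ) ^ k := by rw [mul_pow, pow_mul]; norm_num
      _ ≤ 2 ^ p * (B : ℝ) ^ k := by
        refine mul_le_mul_of_nonneg_right ?_ (by positivity)
        exact pow_le_pow_right₀ (by norm_num) (by omega)
  have h6 : (d : ℝ) ^ p ≤ 4 ^ p * (B : ℝ) ^ k := by
    set T : ℝ := max |(r : ℝ)| s with hT
    have hT0 : 0 ≤ T := le_max_of_le_right hs'.le
    have h7 : (d : ℝ) ≤ 2 * T := by
      refine h3.trans ((abs_sub _ _).trans ?_)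
      rw [abs_of_pos hs']
      have h8 : |(r : ℝ)| ≤ T := le_max_left _ _
      have h9 : (s : ℝ) ≤ T := le_max_right _ _
      linarith
    have h8 : T ^ p ≤ 2 ^ p * (B : ℝ) ^ k := by
      rcases max_choice |(r : ℝ)| (s : ℝ) with h9 | h9
      · rw [hT, h9]; exact h4
      · rw [hT, h9]; exact h5
    calc (d : ℝ) ^ p ≤ (2 * T) ^ p := by gcongr
      _ = 2 ^ p * T ^ p := by rw [mul_pow]
      _ ≤ 2 ^ p * (2 ^ p * (B : ℝ) ^ k) := by gcongr
      _ = 4 ^ p * (B : ℝ) ^ k := by rw [← mul_assoc, ← mul_pow]; norm_num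
  have hBde : (B : ℝ) = d * e := by
    have h7 : B = ((d * e : ℕ) : ℤ) := by rw [← hde, Int.natCast_natAbs, abs_of_pos hB]
    rw [h7]
    push_cast
    ring
  have h7 : (B : ℝ) ^ p ≤ 4 ^ p * B ^ k * e ^ p := by
    nth_rewrite 1 [hBde]
    rw [mul_pow]
    exact mul_le_mul_of_nonneg_right h6 (by positivity)
  have h8 : (B : ℝ) ^ p = B ^ k * B ^ (k + 1) := by rw [← pow_add, hk]; congr 1; ring
  rw [h8] at h7
  have h9 : (B : ℝ) ^ k * B ^ (k + 1) ≤ B ^ k * (4 * e) ^ p := by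
    rw [mul_pow]
    calc (B : ℝ) ^ k * B ^ (k + 1) ≤ _ := h7
      _ = _ := by ring
  have h10 := le_of_mul_le_mul_left h9 (by positivity)
  rw [hBde] at h10
  push_cast
  exact h10

end Pool.Agent.U792.QF
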