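import Mathlib
import Pool.Agent.U792.QF.Arith

/-!
# The rational zeros of the polynomial of Cauchy

`x ^ p + y ^ p = (x + y) ^ p` with `(x + y) ^ 2 / (x y)` rational holds only for `x ^ 2 + x y + y ^ 2 = 0`
(and in the obvious cases).
-/

set_option autoImplicit false

namespace Pool.Agent.U792.QF

theorem H_mod_A1 (A B : ℤ) (m : ℕ) : A ∣ H A B m - (2 * m + 1) * (-B) ^ m := by
  induction m using Nat.twoStepInduction with
  | zero => simp [H]
  | one => exact ⟨1, by simp only [H]; push_cast; ring⟩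
  | more m h3 h4 =>
    obtain ⟨s, hs⟩ := h3
    obtain ⟨t, ht⟩ := h4
    have e0 : H A B (m + 2) = (A - 2 * B) * H A B (m + 1) - B ^ 2 * H A B m := rfl
    rw [e0]
    refine ⟨H A B (m + 1) - 2 * B * t - B ^ 2 * s, ?_⟩
    push_cast at ht ⊢
    have e1 : (-B) ^ (m + 1) = -B * (-B) ^ m := by ring
    have e2 : (-B) ^ (m + 2) = B ^ 2 * (-B) ^ m := by ring
    rw [e2]
    rw [e1] at ht
    linear_combination (-2 * B) * ht - B ^ 2 * hs

theorem H_one_mod (B : ℤ) (m : ℕ) :
    B ^ 3 ∣ H 1 B m - (1 - (2 * m + 1) * B + (2 * m + 1) * (m - 1) * B ^ 2) ∨ m = 0 := by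
  have key : ∀ m : ℕ, B ^ 3 ∣ H 1 B (m + 1) -
      (1 - (2 * m + 3) * B + (2 * m + 3) * m * B ^ 2) := by
    intro m
    induction m using Nat.twoStepInduction with
    | zero => exact ⟨0, by simp only [H]; push_cast; ring⟩
    | one => exact ⟨0, by simp only [H]; push_cast; ring⟩
    | more m h3 h4 =>
      obtain ⟨s, hs⟩ := h3
      obtain ⟨t, ht⟩ := h4
      have e0 : H 1 B (m + 2 + 1) = (1 - 2 * B) * H 1 B (m + 1 + 1) - B ^ 2 * H 1 B (m + 1) := rfl
      rw [e0]
      push_cast at ht ⊢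
      refine ⟨(1 - 2 * B) * t - B ^ 2 * s - 2 * (2 * m + 5) * (m + 1) + (2 * m + 3) -
        (2 * m + 3) * m * B, ?_⟩
      linear_combination (1 - 2 * B) * ht - B ^ 2 * hs
  rcases m with _ | m
  · exact Or.inr rfl
  · left
    have := key m
    push_cast
    have e : (1 - (2 * ((m : ℤ) + 1) + 1) * B + (2 * ((m : ℤ) + 1) + 1) * ((m : ℤ) + 1 - 1) * B ^ 2) =
        1 - (2 * m + 3) * B + (2 * m + 3) * m * B ^ 2 := by ring
    rw [e]
    exact this

theorem H_lucas (m : ℕ) : 1 ≤ H 1 (-1) m ∧ H 1 (-1) m < H 1 (-1) (m + 1) := by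
  induction m with
  | zero => simp [H]
  | succ m ih =>
    obtain ⟨h1, h2⟩ := ih
    have e0 : H 1 (-1) (m + 2) = (1 - 2 * (-1)) * H 1 (-1) (m + 1) - (-1) ^ 2 * H 1 (-1) m := rfl
    refine ⟨by linarith, ?_⟩
    rw [show m + 1 + 1 = m + 2 from rfl, e0]
    linarith

/-- the trivial solutions -/
theorem triv {p k : ℕ} (hp : p.Prime) (hp5 : 5 ≤ p) (hk : p = 2 * k + 1) {A B : ℤ}
    (hc : IsCoprime A B) (hA : 0 < A) (hB0 : B ≠ 0) (h : H A B k = A ^ k) : A = 1 ∧ B = 1 := by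
  have hk2 : 2 ≤ k := by omega
  have hpc : ((p : ℕ) : ℤ) = 2 * k + 1 := by rw [hk]; push_cast; ring
  -- `A` divides `p`
  have h1 : A ∣ (p : ℤ) := by
    have h2 := H_mod_A1 A B k
    have h3 : A ∣ H A B k := by
      rw [h]; exact dvd_pow_self _ (by omega)
    have h4 : A ∣ (p : ℤ) * (-B) ^ k := by
      have := dvd_sub h3 h2
      rw [sub_sub_cancel, ← hpc] at this
      exact this
    exact (hc.neg_right.pow_right).dvd_of_dvd_mul_right h4
  have hA1 : A = 1 := by
    lift A to ℕ using hA.le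
    have h2 : A ∣ p := by exact_mod_cast h1
    rcases (Nat.dvd_prime hp).1 h2 with h3 | h3
    · exact_mod_cast h3
    · exfalso
      rw [h3] at hc h
      apply p_exact hp hp5 hk hc dvd_rfl
      rw [h]
      exact pow_dvd_pow _ hk2
  refine ⟨hA1, ?_⟩
  rw [hA1, one_pow] at h
  -- `B ^ 2` divides `p`
  have h2 : B ^ 2 ∣ (p : ℤ) := by
    rcases H_one_mod B k with h3 | h3
    · rw [h] at h3
      have h4 : B * B ^ 2 ∣ B * (p * (1 - (k - 1) * B)) := by
        have e1 : B * B ^ 2 = B ^ 3 := by ring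
        have e2 : B * (p * (1 - (k - 1) * B)) =
            1 - (1 - (2 * k + 1) * B + (2 * k + 1) * (k - 1) * B ^ 2) := by
          rw [hpc]; ring
        rw [e1, e2]
        exact h3
      have h5 : B ^ 2 ∣ p * (1 - (k - 1) * B) := (mul_dvd_mul_iff_left hB0).1 h4
      have h6 : IsCoprime (B ^ 2) (1 - (k - 1) * B) := by
        apply IsCoprime.pow_left
        exact ⟨k - 1, 1, by ring⟩
      exact h6.dvd_of_dvd_mul_right h5
    · omega
  have hB1 : B.natAbs = 1 := by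
    have h3 : B.natAbs ^ 2 ∣ p := by
      have := Int.natAbs_dvd_natAbs.2 h2
      rwa [Int.natAbs_pow, Int.natAbs_natCast] at this
    by_contra h4
    have h5 : B.natAbs ∣ p := (dvd_pow_self _ two_ne_zero).trans h3
    rcases (Nat.dvd_prime hp).1 h5 with h6 | h6
    · exact h4 h6
    · rw [h6] at h3
      have h7 := Nat.le_of_dvd hp.pos h3
      nlinarith [hp.one_lt]
  rcases Int.natAbs_eq B with h3 | h3
  · rw [h3, hB1]; rfl
  · exfalso
    rw [hB1] at h3
    rw [Nat.cast_one] at h3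
    have h4 : H 1 (-1) k = 1 := by rw [h3] at h; exact h
    obtain ⟨j, rfl⟩ : ∃ j, k = j + 1 := ⟨k - 1, by omega⟩
    obtain ⟨h5, h6⟩ := H_lucas j
    linarith

end Pool.Agent.U792.QF
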