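import Mathlib
import Pool.Agent.U792.QF.Size
import Pool.Agent.U792.QF.Triv

/-!
# Sums of `p`-th powers of conjugate quadratic integers: the theorem
-/

set_option autoImplicit false

namespace Pool.Agent.U792.QF

open Finset

theorem final {p : ℕ} (hp : p.Prime) (hp5 : 5 ≤ p) {X N z : ℤ} {x y : ℂ} (hX : x + y = X)
    (hN : x * y = N) (hN0 : N ≠ 0) (hz : z ≠ 0)
    (hnt : x ^ 2 + x * y + y ^ 2 ≠ 0) (h : x ^ p + y ^ p = (z : ℂ) ^ p)
    {d e : ℕ} (hde : N.natAbs = Int.gcd (X ^ 2) N * (d * e))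
    (hd : ∀ l : ℕ, l.Prime → l ∣ d → ¬ l ≡ 1 [MOD p]) :
    (x.im = 0 → |(X : ℝ)| * max ‖x‖ ‖y‖ ^ p ≤
      (Int.gcd (X ^ 2) N : ℝ) ^ ((p + 1) / 2) * (e : ℝ) ^ p) ∧
    (x.im ≠ 0 → ((d * e : ℕ) : ℝ) ^ ((p + 1) / 2) ≤ (4 * e : ℝ) ^ p) := by
  have hodd : Odd p := hp.odd_of_ne_two (by omega)
  obtain ⟨k, hk⟩ := hodd
  have hkk : (p + 1) / 2 = k + 1 := by omega
  rw [hkk]
  have hX0 : X ≠ 0 := by
    rintro rfl
    have h1 : y = -x := by
      have : x + y = 0 := by rw [hX]; norm_num
      linear_combination this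
    rw [h1, Odd.neg_pow ⟨k, hk⟩, add_neg_cancel] at h
    exact hz (by exact_mod_cast (pow_eq_zero_iff hp.ne_zero).1 h.symm)
  set a : ℕ := Int.gcd (X ^ 2) N with ha
  have ha0 : 0 < a := Int.gcd_pos_of_ne_zero_right _ hN0
  obtain ⟨A, hA⟩ : (a : ℤ) ∣ X ^ 2 := Int.gcd_dvd_left _ _
  obtain ⟨B, hB⟩ : (a : ℤ) ∣ N := Int.gcd_dvd_right _ _
  have haZ : (0 : ℤ) < a := by exact_mod_cast ha0
  have hc : IsCoprime A B := by
    rw [Int.isCoprime_iff_gcd_eq_one]
    have h1 : Int.gcd (a * A) (a * B) = a := by rw [← hA, ← hB]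
    rw [Int.gcd_mul_left, Int.natAbs_natCast] at h1
    exact Nat.eq_of_mul_eq_mul_left ha0 (by rw [h1, mul_one])
  have hX2 : 0 < X ^ 2 := by positivity
  have hApos : 0 < A := by
    rw [hA] at hX2
    exact (pos_iff_pos_of_mul_pos hX2).1 haZ
  have hB0 : B ≠ 0 := by
    rintro rfl
    rw [mul_zero] at hB
    exact hN0 hB
  -- normalised roots
  set α : ℂ := ((Real.sqrt a : ℝ) : ℂ) with hα
  have hαa : α ^ 2 = (a : ℂ) := by
    rw [hα, ← Complex.ofReal_pow, Real.sq_sqrt (Nat.cast_nonneg _)]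
    push_cast
    rfl
  have haC : (a : ℂ) ≠ 0 := by exact_mod_cast ha0.ne'
  have hα0 : α ≠ 0 := by
    intro h1
    rw [h1, zero_pow two_ne_zero] at hαa
    exact haC hαa.symm
  have hA1 : (x / α + y / α) ^ 2 = (A : ℂ) := by
    have e1 : (x / α + y / α) ^ 2 = (x + y) ^ 2 / α ^ 2 := by field_simp
    rw [e1, hαa, hX]
    have e2 : (X : ℂ) ^ 2 = a * A := by exact_mod_cast hA
    rw [e2]
    field_simp
  have hB1 : (x / α) * (y / α) = (B : ℂ) := by
    have e1 : (x / α) * (y / α) = (x * y) / α ^ 2 := by field_simp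
    rw [e1, hαa, hN]
    have e2 : (N : ℂ) = a * B := by exact_mod_cast hB
    rw [e2]
    field_simp
  -- numerator and denominator
  set ρ : ℚ := (z : ℚ) / X with hρ
  set r : ℤ := ρ.num with hr
  set s : ℤ := (ρ.den : ℤ) with hs
  have hspos : 0 < s := by
    rw [hs]
    exact_mod_cast ρ.den_pos
  have hrs : IsCoprime r s := by
    rw [Int.isCoprime_iff_gcd_eq_one]
    have := ρ.reduced
    rw [Nat.Coprime] at this
    rw [Int.gcd, hs, Int.natAbs_natCast]
    exact this
  have hXQ : (X : ℚ) ≠ 0 := by exact_mod_cast hX0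
  have hsQ : (s : ℚ) ≠ 0 := by exact_mod_cast hspos.ne'
  have hrat : (r : ℚ) / s = z / X := by
    have := Rat.num_div_den ρ
    rw [hs, hr, Int.cast_natCast, this]
  have hcross : X * r = z * s := by
    have : (r : ℚ) * X = z * s := by
      field_simp at hrat
      linarith
    have h2 : r * X = z * s := by exact_mod_cast this
    rw [mul_comm]; exact h2
  have hmain : z ^ p = X * (a ^ k * H A B k) := by
    have h1 := H_mul (A := X ^ 2) (B := N) (x := x) (y := y) (by rw [hX]; push_cast; rfl) hN k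
    rw [← hk, h, hX, hA, hB, H_smul] at h1
    have h2 : X * ((a : ℤ) ^ k * H A B k) = z ^ p := by exact_mod_cast h1
    exact h2.symm
  have hXp : X ^ p = X * (a ^ k * A ^ k) := by
    rw [← mul_pow, ← hA, hk, pow_succ, pow_mul]
    ring
  have heq : A ^ k * r ^ p = s ^ p * H A B k := by
    have h1 : X ^ p * r ^ p = z ^ p * s ^ p := by rw [← mul_pow, ← mul_pow, hcross]
    rw [hmain, hXp] at h1
    have h2 : (X * a ^ k) * (A ^ k * r ^ p) = (X * a ^ k) * (s ^ p * H A B k) := by
      linear_combination h1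
    exact mul_left_cancel₀ (mul_ne_zero hX0 (pow_ne_zero _ haZ.ne')) h2
  obtain ⟨δ, hδ0, hδr, hδs, hδ⟩ := factor hp hp5 hk hc hApos hspos hrs heq
  have hδ1 : (1 : ℤ) ≤ δ := by exact_mod_cast hδ0
  have hsA : s ^ p ≤ A ^ k := by
    rw [← hδs]
    have : 0 < s ^ p := by positivity
    nlinarith
  have hrH : |r| ^ p ≤ |H A B k| := by
    rw [← hδr, abs_mul, abs_pow, Nat.abs_cast]
    have : 0 ≤ |r| ^ p := by positivity
    nlinarith
  have hrne : r ≠ s := by
    intro h1
    rw [h1, ← hδs] at heq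
    have h2 : H A B k = A ^ k := by
      have h3 : s ^ p * H A B k = s ^ p * A ^ k := by rw [← heq, ← hδs]; ring
      exact mul_left_cancel₀ (pow_ne_zero _ hspos.ne') h3
    obtain ⟨h3, h4⟩ := triv hp hp5 hk hc hApos hB0 h2
    rw [h3] at hA
    rw [h4] at hB
    apply hnt
    have h5 : (X : ℂ) ^ 2 = N := by
      rw [hB, ← hA]
      push_cast
      rfl
    have h6 : x ^ 2 + x * y + y ^ 2 = (x + y) ^ 2 - x * y := by ring
    rw [h6, hX, hN, h5, sub_self]
  have hBde : B.natAbs = d * e := by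
    rw [hB, Int.natAbs_mul, Int.natAbs_natCast] at hde
    exact Nat.eq_of_mul_eq_mul_left ha0 hde
  have hdB : (d : ℤ) ∣ B := by
    rw [← Int.dvd_natAbs, hBde]
    push_cast
    exact Dvd.intro _ rfl
  have hd0 : 0 < d := by
    rcases Nat.eq_zero_or_pos d with h1 | h1
    · rw [h1, zero_mul, Int.natAbs_eq_zero] at hBde
      exact absurd hBde hB0
    · exact h1
  have hdiv : (d : ℤ) ∣ r - s := root_dvd hp hp5 hk hA1 hB1 hB0 hc hδr hδs hδ hdB hd
  have haR : (0 : ℝ) < a := by exact_mod_cast ha0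
  have hXR : (X : ℝ) ≠ 0 := by exact_mod_cast hX0
  have hXA : (X : ℝ) ^ 2 = a * A := by exact_mod_cast hA
  have hNB : (N : ℝ) = a * B := by exact_mod_cast hB
  have hratR : (r / s : ℝ) = z / X := by exact_mod_cast congrArg (fun t : ℚ => (t : ℝ)) hrat
  constructor
  · -- real roots
    intro him
    have hyim : y.im = 0 := by
      have h1 := congrArg Complex.im hX
      rw [Complex.add_im, him, zero_add, Complex.intCast_im] at h1
      exact h1
    obtain ⟨x0, rfl⟩ : ∃ x0 : ℝ, x = (x0 : ℂ) := ⟨x.re, Complex.ext (by simp) (by simpa using him)⟩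
    obtain ⟨y0, rfl⟩ : ∃ y0 : ℝ, y = (y0 : ℂ) := ⟨y.re, Complex.ext (by simp) (by simpa using hyim)⟩
    have hXr : x0 + y0 = X := by exact_mod_cast hX
    have hNr : x0 * y0 = N := by exact_mod_cast hN
    have hr' : x0 ^ p + y0 ^ p = (z : ℝ) ^ p := by exact_mod_cast h
    -- the inequality for the larger one
    have key : ∀ x1 y1 : ℝ, x1 + y1 = X → x1 * y1 = N → x1 ^ p + y1 ^ p = (z : ℝ) ^ p →
        |y1| ≤ |x1| → |(X : ℝ)| * |x1| ^ p ≤ (a : ℝ) ^ (k + 1) * (e : ℝ) ^ p := by
      intro x1 y1 h1 h2 h3 h4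
      have g := real_case (p := p) (k := k) hk hApos (u := x1 / X) (v := y1 / X)
        (by rw [← add_div, h1, div_self hXR]) (B := B)
        (by
          have e1 : x1 / X * (y1 / X) * A = (x1 * y1) * A / X ^ 2 := by field_simp
          rw [e1, h2, hXA, hNB]
          have : (A : ℝ) ≠ 0 := by exact_mod_cast hApos.ne'
          field_simp)
        (by
          rw [abs_div, abs_div]
          gcongr) hspos
        (by rw [hratR, div_pow, ← h3, add_div, div_pow, div_pow]) hrne hsA hBde hdiv hd0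
      have e1 : |(X : ℝ)| * |x1| ^ p = (a : ℝ) ^ (k + 1) * (|x1 / X| ^ p * (A : ℝ) ^ (k + 1)) := by
        have e2 : (a : ℝ) ^ (k + 1) * (|x1 / X| ^ p * (A : ℝ) ^ (k + 1)) =
            |x1 / X| ^ p * (a * A) ^ (k + 1) := by rw [mul_pow]; ring
        have e3 : (X : ℝ) ^ 2 = |(X : ℝ)| ^ 2 := (sq_abs _).symm
        rw [e2, ← hXA, e3, abs_div, div_pow, ← pow_mul, show 2 * (k + 1) = p + 1 by omega, pow_succ]
        have : |(X : ℝ)| ^ p ≠ 0 := by positivity
        field_simp
      rw [e1]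
      exact mul_le_mul_of_nonneg_left g (by positivity)
    have hnx : ‖(x0 : ℂ)‖ = |x0| := by rw [Complex.norm_real, Real.norm_eq_abs]
    have hny : ‖(y0 : ℂ)‖ = |y0| := by rw [Complex.norm_real, Real.norm_eq_abs]
    rw [hnx, hny]
    rcases le_total |y0| |x0| with h1 | h1
    · rw [max_eq_left h1]
      exact key x0 y0 hXr hNr hr' h1
    · rw [max_eq_right h1]
      exact key y0 x0 (by rw [add_comm]; exact hXr) (by rw [mul_comm]; exact hNr)
        (by rw [add_comm]; exact hr') h1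
  · -- imaginary roots
    intro him
    have hyc : y = (starRingEnd ℂ) x := by
      have h1 : y = X - x := by rw [← hX]; ring
      have h2 := congrArg Complex.im hN
      rw [h1] at h2
      simp only [Complex.mul_im, Complex.sub_im, Complex.sub_re, Complex.intCast_im,
        Complex.intCast_re] at h2
      have h3 : x.im * (X - 2 * x.re) = 0 := by linarith
      have h4 : (X : ℝ) = 2 * x.re := by
        rcases mul_eq_zero.1 h3 with h5 | h5
        · exact absurd h5 him
        · linarith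
      rw [h1]
      apply Complex.ext
      · simp only [Complex.sub_re, Complex.intCast_re, Complex.conj_re]
        linarith
      · simp only [Complex.sub_im, Complex.intCast_im, Complex.conj_im]
        ring
    have hNx : (N : ℝ) = ‖x‖ ^ 2 := by
      have h1 : ((N : ℝ) : ℂ) = ((‖x‖ ^ 2 : ℝ) : ℂ) := by
        rw [Complex.ofReal_intCast, ← hN, hyc, Complex.mul_conj, Complex.normSq_eq_norm_sq]
      exact_mod_cast h1
    have hnorm : ‖x‖ = ‖y‖ := by rw [hyc, Complex.norm_conj]
    have hx0 : x ≠ 0 := by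
      rintro rfl
      exact him rfl
    have hNpos : (0 : ℝ) < N := by rw [hNx]; positivity
    have hBpos : 0 < B := by
      rw [hNB] at hNpos
      have : (0 : ℝ) < B := (pos_iff_pos_of_mul_pos hNpos).1 haR
      exact_mod_cast this
    have hX4 : (X : ℝ) ^ 2 ≤ 4 * N := by
      have h1 : (X : ℝ) = 2 * x.re := by
        have := congrArg Complex.re hX
        rw [hyc, Complex.add_re, Complex.conj_re, Complex.intCast_re] at this
        linarith
      have h2 : |x.re| ≤ ‖x‖ := Complex.abs_re_le_norm x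
      have h3 : x.re ^ 2 ≤ ‖x‖ ^ 2 := by
        rw [← sq_abs x.re]
        gcongr
      rw [h1, hNx]
      nlinarith
    have hAB : A ≤ 4 * B := by
      rw [hXA, hNB] at hX4
      have : (A : ℝ) ≤ 4 * B := by
        have h2 : (a : ℝ) * A ≤ a * (4 * B) := by linarith
        exact le_of_mul_le_mul_left h2 haR
      exact_mod_cast this
    have hαR : ‖α‖ ^ 2 = a := by
      rw [← norm_pow, hαa, Complex.norm_natCast]
    have hH : |(H A B k : ℝ)| ≤ p * (B : ℝ) ^ k := by
      have h1 := norm_G_le (k := k) (x := x / α) (y := y / α)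
        (by
          intro h2
          rw [h2, zero_pow two_ne_zero] at hA1
          exact hApos.ne' (by exact_mod_cast hA1.symm))
        (by rw [norm_div, norm_div, hnorm]) (G := (H A B k : ℂ)) (H_mul hA1 hB1 k)
      rw [Complex.norm_intCast] at h1
      have h2 : ‖x / α‖ ^ (2 * k) = (B : ℝ) ^ k := by
        rw [pow_mul]
        congr 1
        rw [norm_div, div_pow, hαR, ← hNx, hNB]
        field_simp
      rw [h2, ← hk] at h1
      exact h1
    exact imag_case hk hBpos hAB hH hspos hrH hrne hsA hApos hBde hdiv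

end Pool.Agent.U792.QF
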